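import Mathlib
import Pool.Agent.R273.Bl4

/-!
# No smooth bounded local identities on `ℓ_p`, `p` not an even integer
-/

set_option autoImplicit false

namespace Pool.Agent.Results.MP_94b2f9_an.NoSmoothBlid

open Topology ENNReal

/-- `H` is a `C^q` blid map (bounded local identity at zero) on `X`. -/
def IsBlidMap (q : ℕ∞) (X : Type) [NormedAddCommGroup X] [NormedSpace ℝ X] (H : X → X) : Prop :=
  ContDiff ℝ q H ∧ (∃ M : ℝ, ∀ x, ‖H x‖ ≤ M) ∧ ∃ V ∈ 𝓝 (0 : X), ∀ x ∈ V, H x = x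

/-- If `1 ≤ p < ∞` is not an even integer and `p + 1 ≤ q ≤ ∞`, then `ℓ_p` has no `C^q` blid map;
in particular (`q = ∞`) it has no `C^∞` blid map. -/
theorem result (p : ℝ≥0∞) [Fact (1 ≤ p)] (hp : p ≠ ⊤) (heven : ∀ k : ℕ, p ≠ 2 * k)
    (q : ℕ∞) (hq : p + 1 ≤ (q : ℝ≥0∞)) :
    ¬ ∃ H : lp (fun _ : ℕ => ℝ) p → lp (fun _ : ℕ => ℝ) p,
      IsBlidMap q (lp (fun _ : ℕ => ℝ) p) H := by
  rintro ⟨H, hH, ⟨M, hM⟩, V, hV, hid⟩
  have : Fact (p ≠ ⊤) := ⟨hp⟩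
  have heven' : ∀ k : ℕ, p.toReal ≠ 2 * k := by
    intro k hk
    apply heven k
    rw [← ENNReal.ofReal_toReal hp, hk, ENNReal.ofReal_mul (by norm_num)]
    simp
  obtain ⟨N, hN, hNq⟩ : ∃ N : ℕ, p.toReal + 1 ≤ N ∧ (N : ℕ∞) ≤ q := by
    rcases eq_or_ne q ⊤ with h | h
    · exact ⟨⌈p.toReal + 1⌉₊, Nat.le_ceil _, h ▸ le_top⟩
    · obtain ⟨N, rfl⟩ := ENat.ne_top_iff_exists.1 h
      refine ⟨N, ?_, le_rfl⟩
      have h1 : (p + 1).toReal ≤ ((N : ℕ∞) : ℝ≥0∞).toReal := ENNReal.toReal_mono (by simp) hq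
      rw [ENNReal.toReal_add hp (by simp)] at h1
      simpa using h1
  have hHN : ContDiff ℝ N H := hH.of_le (by exact_mod_cast hNq)
  exact R273Bl.no_blid heven' hN hHN hM (Filter.mem_of_superset hV hid)

end Pool.Agent.Results.MP_94b2f9_an.NoSmoothBlid
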